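import Mathlib

namespace Pool.Agent.H.MP_885f98_gt

open Finset

/-- The space `ℍ^k` of quaternionic vectors. -/
abbrev QVec (k : ℕ) : Type := Fin k → Quaternion ℝ

/-- The standard Hermitian product on `ℍ^k`. -/
noncomputable def herm {k : ℕ} (x y : QVec k) : Quaternion ℝ := ∑ i, x i * star (y i)

/-- The squared norm on `ℍ^k`. -/
noncomputable def nsq {k : ℕ} (x : QVec k) : ℝ := ∑ i, ‖x i‖ ^ 2

variable {k : ℕ}

theorem norm_star' (q : Quaternion ℝ) : ‖star q‖ = ‖q‖ := norm_star q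

theorem nsq_nonneg (x : QVec k) : 0 ≤ nsq x := sum_nonneg fun _ _ => sq_nonneg _

theorem mul_star_self (q : Quaternion ℝ) : q * star q = ((‖q‖ ^ 2 : ℝ) : Quaternion ℝ) := by
  rw [Quaternion.self_mul_star, Quaternion.normSq_eq_norm_mul_self, sq]

theorem herm_self (x : QVec k) : herm x x = ((nsq x : ℝ) : Quaternion ℝ) := by
  rw [herm, nsq]
  have : ((∑ i, ‖x i‖ ^ 2 : ℝ) : Quaternion ℝ) = ∑ i, ((‖x i‖ ^ 2 : ℝ) : Quaternion ℝ) :=
    map_sum (M := ℝ) (N := Quaternion ℝ) (algebraMap ℝ (Quaternion ℝ)) (fun i => ‖x i‖ ^ 2) univ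
  rw [this]
  exact sum_congr rfl fun i _ => mul_star_self _

theorem star_herm (x y : QVec k) : star (herm x y) = herm y x := by
  rw [herm, herm, star_sum]
  exact sum_congr rfl fun i _ => by rw [star_mul, star_star]

theorem norm_one_sub_herm_comm (x y : QVec k) : ‖1 - herm x y‖ = ‖1 - herm y x‖ := by
  rw [← norm_star' (1 - herm x y), star_sub, star_one, star_herm]

/-- Cauchy-Schwarz. -/
theorem norm_herm_le (x y : QVec k) : ‖herm x y‖ ≤ √(nsq x) * √(nsq y) := by
  refine (norm_sum_le _ _).trans ?_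
  have h1 : ∀ i ∈ univ, ‖x i * star (y i)‖ = ‖x i‖ * ‖y i‖ := by
    intro i _
    rw [norm_mul, norm_star']
  rw [sum_congr rfl h1]
  exact Real.sum_mul_le_sqrt_mul_sqrt univ (fun i => ‖x i‖) (fun i => ‖y i‖)

theorem herm_sub_left (x x' y : QVec k) : herm (x - x') y = herm x y - herm x' y := by
  simp only [herm, Pi.sub_apply, sub_mul, sum_sub_distrib]

theorem herm_sub_right (x y y' : QVec k) : herm x (y - y') = herm x y - herm x y' := by
  simp only [herm, Pi.sub_apply, star_sub, mul_sub, sum_sub_distrib]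

/-- Left multiplication of a vector by a quaternion. -/
noncomputable def lmul (q : Quaternion ℝ) (x : QVec k) : QVec k := fun i => q * x i

theorem herm_lmul_left (q : Quaternion ℝ) (x y : QVec k) :
    herm (lmul q x) y = q * herm x y := by
  simp only [herm, lmul, mul_sum, mul_assoc]

theorem herm_lmul_right (q : Quaternion ℝ) (x y : QVec k) :
    herm x (lmul q y) = herm x y * star q := by
  simp only [herm, lmul, star_mul, sum_mul, mul_assoc]

theorem nsq_eq_re (x : QVec k) : nsq x = (herm x x).re := by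
  rw [herm_self]
  rfl

theorem re_herm_comm (x y : QVec k) : (herm x y).re = (herm y x).re := by
  rw [← star_herm y x, Quaternion.re_star]

theorem nsq_sub (x y : QVec k) : nsq (x - y) = nsq x + nsq y - 2 * (herm x y).re := by
  rw [nsq_eq_re, nsq_eq_re x, nsq_eq_re y, herm_sub_left, herm_sub_right, herm_sub_right]
  simp only [Quaternion.re_sub]
  rw [re_herm_comm y x]
  ring

theorem nsq_eq_zero {x : QVec k} (h : nsq x = 0) : x = 0 := by
  funext i
  have h1 := (sum_eq_zero_iff_of_nonneg (fun i _ => sq_nonneg ‖x i‖)).mp h i (mem_univ i)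
  simpa using h1

theorem abs_re_le (q : Quaternion ℝ) : |q.re| ≤ ‖q‖ := by
  have h1 : ‖q‖ * ‖q‖ = q.re ^ 2 + q.imI ^ 2 + q.imJ ^ 2 + q.imK ^ 2 := by
    rw [← Quaternion.normSq_eq_norm_mul_self, Quaternion.normSq_def']
  apply abs_le_of_sq_le_sq _ (norm_nonneg q)
  nlinarith [sq_nonneg q.imI, sq_nonneg q.imJ, sq_nonneg q.imK]

theorem re_le_norm (q : Quaternion ℝ) : q.re ≤ ‖q‖ := (le_abs_self _).trans (abs_re_le q)

/-- A lower bound for the norm of a combination. -/
theorem norm_combo_ge {r c : ℝ} (hr : 0 ≤ r) (hc : 0 ≤ c) {q : Quaternion ℝ} (hq : 0 ≤ q.re) :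
    c * ‖q‖ ≤ ‖(r : Quaternion ℝ) + (c : Quaternion ℝ) * q‖ := by
  have h1 : ‖q‖ * ‖q‖ = q.re ^ 2 + q.imI ^ 2 + q.imJ ^ 2 + q.imK ^ 2 := by
    rw [← Quaternion.normSq_eq_norm_mul_self, Quaternion.normSq_def']
  set w : Quaternion ℝ := (r : Quaternion ℝ) + (c : Quaternion ℝ) * q with hw
  have h2 : ‖w‖ * ‖w‖ = w.re ^ 2 + w.imI ^ 2 + w.imJ ^ 2 + w.imK ^ 2 := by
    rw [← Quaternion.normSq_eq_norm_mul_self, Quaternion.normSq_def']
  have e0 : w.re = r + c * q.re := by simp [hw]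
  have e1 : w.imI = c * q.imI := by simp [hw]
  have e2 : w.imJ = c * q.imJ := by simp [hw]
  have e3 : w.imK = c * q.imK := by simp [hw]
  rw [e0, e1, e2, e3] at h2
  have h3 : 0 ≤ r * (c * q.re) := mul_nonneg hr (mul_nonneg hc hq)
  have h4 : (c * ‖q‖) ^ 2 = c ^ 2 * (q.re ^ 2 + q.imI ^ 2 + q.imJ ^ 2 + q.imK ^ 2) := by
    rw [← h1]
    ring
  have h5 : ‖w‖ ^ 2 = r ^ 2 + 2 * (r * (c * q.re))
      + c ^ 2 * (q.re ^ 2 + q.imI ^ 2 + q.imJ ^ 2 + q.imK ^ 2) := by
    rw [sq ‖w‖, h2]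
    ring
  apply (sq_le_sq₀ (mul_nonneg hc (norm_nonneg q)) (norm_nonneg w)).mp
  rw [h4, h5]
  linarith [sq_nonneg r]

/-- `rho ξ η = |1 - ⟨ξ, η⟩|^(1/2)`. -/
noncomputable def rho (x y : QVec k) : ℝ := √‖1 - herm x y‖

theorem rho_nonneg (x y : QVec k) : 0 ≤ rho x y := Real.sqrt_nonneg _

theorem rho_sq (x y : QVec k) : rho x y ^ 2 = ‖1 - herm x y‖ := Real.sq_sqrt (norm_nonneg _)

theorem rho_comm (x y : QVec k) : rho x y = rho y x := by
  rw [rho, rho, norm_one_sub_herm_comm]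

theorem rho_self {x : QVec k} (hx : nsq x = 1) : rho x x = 0 := by
  rw [rho, herm_self, hx]
  simp

theorem one_sub_re (x y : QVec k) (hx : nsq x = 1) (hy : nsq y = 1) :
    (1 - herm x y).re = nsq (x - y) / 2 := by
  rw [nsq_sub, hx, hy, Quaternion.re_sub]
  simp only [Quaternion.re_one]
  ring

theorem rho_pos {x y : QVec k} (hx : nsq x = 1) (hy : nsq y = 1) (hxy : x ≠ y) : 0 < rho x y := by
  apply Real.sqrt_pos.mpr
  have h1 := one_sub_re x y hx hy
  have h2 : 0 < nsq (x - y) := by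
    rcases (nsq_nonneg (x - y)).lt_or_eq with h | h
    · exact h
    · exact absurd (sub_eq_zero.mp (nsq_eq_zero h.symm)) hxy
  have h3 := re_le_norm (1 - herm x y)
  linarith

/-- The norm of the part of `a` orthogonal to `b`. -/
theorem nsq_proj {a b : QVec k} (ha : nsq a = 1) (hb : nsq b = 1) :
    nsq (a - lmul (herm a b) b) = 1 - ‖herm a b‖ ^ 2 := by
  rw [nsq_sub, ha, nsq_eq_re (lmul _ _), herm_lmul_left, herm_lmul_right, herm_lmul_right,
    herm_self, hb]
  have h1 : herm a b * star (herm a b) = ((‖herm a b‖ ^ 2 : ℝ) : Quaternion ℝ) :=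
    mul_star_self _
  rw [Quaternion.coe_one, one_mul, h1]
  simp only [Quaternion.re_coe]
  ring

theorem one_sub_sq_le (q : Quaternion ℝ) : 1 - ‖q‖ ^ 2 ≤ 2 * ‖1 - q‖ := by
  have h1 : (1 : ℝ) ≤ ‖1 - q‖ + ‖q‖ := by
    have := norm_add_le (1 - q) q
    rwa [sub_add_cancel, norm_one] at this
  nlinarith [norm_nonneg q, norm_nonneg (1 - q), sq_nonneg (1 - ‖q‖)]

/-- The triangle inequality for `rho` on the unit sphere. -/
theorem rho_triangle {a b c : QVec k} (ha : nsq a = 1) (hb : nsq b = 1) (hc : nsq c = 1) :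
    rho a c ≤ rho a b + rho b c := by
  set a' := a - lmul (herm a b) b with ha'
  set c' := c - lmul (herm c b) b with hc'
  have horth : herm a' b = 0 := by
    rw [ha', herm_sub_left, herm_lmul_left, herm_self, hb]
    simp
  have h1 : herm a' c = herm a' c' := by
    rw [hc', herm_sub_right, herm_lmul_right, horth, zero_mul, sub_zero]
  have h2 : herm a' c = herm a c - herm a b * herm b c := by
    rw [ha', herm_sub_left, herm_lmul_left]
  have hab1 : ‖herm a b‖ ≤ 1 := by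
    have := norm_herm_le a b
    rwa [ha, hb, Real.sqrt_one, one_mul] at this
  have e1 : ‖herm a' c‖ ≤ 2 * (rho a b * rho b c) := by
    rw [h1]
    refine (norm_herm_le a' c').trans ?_
    rw [ha', hc', nsq_proj ha hb, nsq_proj hc hb]
    have s1 : √(1 - ‖herm a b‖ ^ 2) ≤ √2 * rho a b := by
      rw [rho, ← Real.sqrt_mul (by norm_num)]
      exact Real.sqrt_le_sqrt (one_sub_sq_le _)
    have s2 : √(1 - ‖herm c b‖ ^ 2) ≤ √2 * rho b c := by
      rw [rho_comm b c, rho, ← Real.sqrt_mul (by norm_num)]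
      exact Real.sqrt_le_sqrt (one_sub_sq_le _)
    calc √(1 - ‖herm a b‖ ^ 2) * √(1 - ‖herm c b‖ ^ 2)
        ≤ (√2 * rho a b) * (√2 * rho b c) :=
          mul_le_mul s1 s2 (Real.sqrt_nonneg _) (mul_nonneg (Real.sqrt_nonneg _) (rho_nonneg _ _))
      _ = (√2 * √2) * (rho a b * rho b c) := by ring
      _ = 2 * (rho a b * rho b c) := by rw [Real.mul_self_sqrt (by norm_num)]
  have e2 : ‖1 - herm a b * herm b c‖ ≤ rho a b ^ 2 + rho b c ^ 2 := by
    rw [rho_sq, rho_sq]
    have : (1 : Quaternion ℝ) - herm a b * herm b c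
        = (1 - herm a b) + herm a b * (1 - herm b c) := by noncomm_ring
    rw [this]
    refine (norm_add_le _ _).trans ?_
    rw [norm_mul]
    have := mul_le_of_le_one_left (norm_nonneg (1 - herm b c)) hab1
    linarith
  have e3 : rho a c ^ 2 ≤ (rho a b + rho b c) ^ 2 := by
    rw [rho_sq a c]
    have : (1 : Quaternion ℝ) - herm a c = (1 - herm a b * herm b c) - herm a' c := by
      rw [h2]; abel
    rw [this]
    refine (norm_sub_le _ _).trans ?_
    nlinarith
  exact (sq_le_sq₀ (rho_nonneg _ _) (add_nonneg (rho_nonneg _ _) (rho_nonneg _ _))).mp e3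

end Pool.Agent.H.MP_885f98_gt
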