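import Pool.Agent.H.MP_885f98_gt.Hyp

namespace Pool.Agent.H.MP_885f98_gt

open Filter Set
open scoped Topology NNReal

variable {n k : ℕ}

/-- The ideal boundary of the quaternionic hyperplane given by the vanishing of the last
coordinate, as a subset of the unit sphere of `ℍ^(n+1)`. -/
def Xset (n : ℕ) : Set (Sph (n + 1)) := {ξ | (ξ : QVec (n + 1)) (Fin.last n) = 0}

/-- Quasisymmetric embeddings of `X` into the ideal boundary. -/
structure IsQSEmbedding (d : Sph (n + 1) → Sph (n + 1) → ℝ) (f : Xset n → Sph (n + 1)) :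
    Prop where
  inj : Function.Injective f
  qs : ∃ η : ℝ≥0 ≃ₜ ℝ≥0, ∀ (x a b : Xset n) (t : ℝ≥0),
    d x a ≤ t * d x b → d (f x) (f a) ≤ η t * d (f x) (f b)

/-- Isometries of quaternionic hyperbolic space in the ball model. -/
def IsHypIsometry (g : Ball k → Ball k) : Prop :=
  Function.Bijective g ∧ ∀ x y, hdist (g x : QVec k) (g y) = hdist (x : QVec k) y

/-- The map `f` is the restriction to `X` of the boundary extension of `g`: as `x` tends to `ξ`
inside the ball, `g x` tends to `f ξ`. -/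
def Induces (g : Ball (n + 1) → Ball (n + 1)) (f : Xset n → Sph (n + 1)) : Prop :=
  ∀ ξ : Xset n, Tendsto (fun x : Ball (n + 1) => (g x : QVec (n + 1)))
    (comap Subtype.val (𝓝 ((ξ : Sph (n + 1)) : QVec (n + 1))))
    (𝓝 ((f ξ : Sph (n + 1)) : QVec (n + 1)))

/-! ### The bending map -/

/-- Bending by the angle `t` in the direction of the last real coordinate. -/
noncomputable def bendVec (t : ℝ) (x : QVec (n + 1)) : QVec (n + 1) := fun i =>
  if i = Fin.last n then ((Real.sin t : ℝ) : Quaternion ℝ) else Real.cos t • x i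

theorem herm_bendVec (s t : ℝ) {x y : QVec (n + 1)} (hx : x (Fin.last n) = 0) :
    herm (bendVec s x) (bendVec t y) = ((Real.cos s * Real.cos t : ℝ) : Quaternion ℝ) * herm x y
      + ((Real.sin s * Real.sin t : ℝ) : Quaternion ℝ) := by
  have h1 : ∀ i : Fin (n + 1), bendVec s x i * star (bendVec t y i)
      = ((Real.cos s * Real.cos t : ℝ) : Quaternion ℝ) * (x i * star (y i))
        + (if i = Fin.last n then ((Real.sin s * Real.sin t : ℝ) : Quaternion ℝ) else 0) := by
    intro i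
    by_cases hi : i = Fin.last n
    · subst hi
      simp only [bendVec, if_true, hx, zero_mul, mul_zero, zero_add]
      rw [Quaternion.star_coe, ← Quaternion.coe_mul]
    · simp only [bendVec, if_neg hi, add_zero]
      rw [Quaternion.star_smul, smul_mul_smul_comm, Quaternion.coe_mul_eq_smul]
  rw [herm, Finset.sum_congr rfl fun i _ => h1 i, Finset.sum_add_distrib, ← Finset.mul_sum,
    Finset.sum_ite_eq' Finset.univ (Fin.last n)]
  simp [herm]

theorem one_sub_herm_bendVec (s t : ℝ) {x y : QVec (n + 1)} (hx : x (Fin.last n) = 0) :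
    1 - herm (bendVec s x) (bendVec t y)
      = ((1 - Real.cos (s - t) : ℝ) : Quaternion ℝ)
        + ((Real.cos s * Real.cos t : ℝ) : Quaternion ℝ) * (1 - herm x y) := by
  rw [herm_bendVec s t hx, Real.cos_sub]
  push_cast
  noncomm_ring

theorem nsq_bendVec (t : ℝ) {x : QVec (n + 1)} (hx : x (Fin.last n) = 0) (hx1 : nsq x = 1) :
    nsq (bendVec t x) = 1 := by
  rw [nsq_eq_re, herm_bendVec t t hx, herm_self, hx1]
  simp only [Quaternion.coe_one, mul_one, Quaternion.re_add, Quaternion.re_coe]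
  nlinarith [Real.sin_sq_add_cos_sq t]

theorem half_le_cos {t : ℝ} (ht0 : 0 ≤ t) (ht1 : t ≤ 1) : 1 / 2 ≤ Real.cos t := by
  have h1 := Real.one_sub_sq_div_two_le_cos (x := t)
  nlinarith

theorem rho_bendVec_bounds {s t : ℝ} (hs0 : 0 ≤ s) (hs1 : s ≤ 1) (ht0 : 0 ≤ t) (ht1 : t ≤ 1)
    {x y : QVec (n + 1)} (hx : x (Fin.last n) = 0) (hx1 : nsq x = 1) (hy1 : nsq y = 1)
    (hst : |s - t| ≤ rho x y) :
    rho x y / 2 ≤ rho (bendVec s x) (bendVec t y) ∧
      rho (bendVec s x) (bendVec t y) ≤ 2 * rho x y := by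
  have hcs := half_le_cos hs0 hs1
  have hct := half_le_cos ht0 ht1
  have hcs1 := Real.cos_le_one s
  have hct1 := Real.cos_le_one t
  have hcst := Real.cos_le_one (s - t)
  have hre : 0 ≤ (1 - herm x y).re := by
    rw [one_sub_re x y hx1 hy1]
    have := nsq_nonneg (x - y)
    linarith
  have hprod1 : 1 / 4 ≤ Real.cos s * Real.cos t := by nlinarith
  have hprod2 : Real.cos s * Real.cos t ≤ 1 := by nlinarith
  have hlow := norm_combo_ge (r := 1 - Real.cos (s - t)) (c := Real.cos s * Real.cos t)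
    (by linarith) (by linarith) hre
  rw [← one_sub_herm_bendVec s t hx, ← rho_sq, ← rho_sq] at hlow
  have hup : rho (bendVec s x) (bendVec t y) ^ 2
      ≤ (1 - Real.cos (s - t)) + Real.cos s * Real.cos t * rho x y ^ 2 := by
    rw [rho_sq, rho_sq, one_sub_herm_bendVec s t hx]
    refine (norm_add_le _ _).trans ?_
    rw [norm_mul, Quaternion.norm_coe, Quaternion.norm_coe, Real.norm_eq_abs, Real.norm_eq_abs,
      abs_of_nonneg (by linarith), abs_of_nonneg (by linarith)]
  have hR := rho_nonneg x y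
  have hR2 : 0 ≤ rho x y ^ 2 := sq_nonneg _
  have hcos := Real.one_sub_sq_div_two_le_cos (x := s - t)
  have hst2 : (s - t) ^ 2 ≤ rho x y ^ 2 := by
    rw [← sq_abs (s - t)]
    exact pow_le_pow_left₀ (abs_nonneg _) hst 2
  constructor
  · apply (sq_le_sq₀ (by positivity) (rho_nonneg _ _)).mp
    nlinarith
  · apply (sq_le_sq₀ (rho_nonneg _ _) (by positivity)).mp
    nlinarith

/-- The base point. -/
noncomputable def e1 (n : ℕ) : QVec (n + 1) := Pi.single 0 1

theorem nsq_single (i : Fin (n + 1)) (q : Quaternion ℝ) (hq : ‖q‖ = 1) :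
    nsq (Pi.single i q : QVec (n + 1)) = 1 := by
  rw [nsq, Finset.sum_eq_single i]
  · rw [Pi.single_eq_same, hq, one_pow]
  · intro j _ hj
    rw [Pi.single_eq_of_ne hj, norm_zero]
    norm_num
  · intro h
    exact absurd (Finset.mem_univ i) h

theorem herm_single (i j : Fin (n + 1)) (p q : Quaternion ℝ) :
    herm (Pi.single i p : QVec (n + 1)) (Pi.single j q) = if i = j then p * star q else 0 := by
  rw [herm, Finset.sum_eq_single i]
  · by_cases hij : i = j
    · subst hij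
      rw [Pi.single_eq_same, Pi.single_eq_same, if_pos rfl]
    · rw [Pi.single_eq_same, Pi.single_eq_of_ne hij, star_zero, mul_zero, if_neg hij]
  · intro l _ hl
    rw [Pi.single_eq_of_ne hl, zero_mul]
  · intro h
    exact absurd (Finset.mem_univ i) h

/-- The bending angle. -/
noncomputable def ang (δ : ℝ) (x : QVec (n + 1)) : ℝ := max 0 (δ - rho x (e1 n))

theorem ang_nonneg (δ : ℝ) (x : QVec (n + 1)) : 0 ≤ ang δ x := le_max_left _ _

theorem ang_le {δ : ℝ} (hδ : 0 ≤ δ) (x : QVec (n + 1)) : ang δ x ≤ δ :=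
  max_le hδ (by linarith [rho_nonneg x (e1 n)])

theorem abs_ang_sub_le (δ : ℝ) {x y : QVec (n + 1)} (hx : nsq x = 1) (hy : nsq y = 1) :
    |ang δ x - ang δ y| ≤ rho x y := by
  have he : nsq (e1 n) = 1 := nsq_single 0 1 norm_one
  have h1 := rho_triangle hx hy he
  have h2 := rho_triangle hy hx he
  rw [rho_comm y x] at h2
  have h := abs_max_sub_max_le_abs (δ - rho x (e1 n)) (δ - rho y (e1 n)) 0
  rw [ang, ang, max_comm 0 (δ - rho x (e1 n)), max_comm 0 (δ - rho y (e1 n))]
  refine h.trans ?_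
  rw [abs_le]
  constructor <;> linarith

/-- The bending map. -/
noncomputable def bend (δ : ℝ) (ξ : Xset n) : Sph (n + 1) :=
  ⟨bendVec (ang δ (ξ : Sph (n + 1)).1) (ξ : Sph (n + 1)).1, nsq_bendVec _ ξ.2 ξ.1.2⟩

theorem bend_bounds {δ : ℝ} (hδ0 : 0 ≤ δ) (hδ1 : δ ≤ 1) (ξ η : Xset n) :
    rho (ξ : Sph (n + 1)).1 (η : Sph (n + 1)).1 / 2 ≤ rho (bend δ ξ).1 (bend δ η).1 ∧
      rho (bend δ ξ).1 (bend δ η).1 ≤ 2 * rho (ξ : Sph (n + 1)).1 (η : Sph (n + 1)).1 :=
  rho_bendVec_bounds (ang_nonneg _ _) ((ang_le hδ0 _).trans hδ1) (ang_nonneg _ _)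
    ((ang_le hδ0 _).trans hδ1) ξ.2 ξ.1.2 η.1.2 (abs_ang_sub_le δ ξ.1.2 η.1.2)

/-- The bending map is close to the identity. -/
theorem bend_close {δ : ℝ} (hδ0 : 0 ≤ δ) (ξ : Xset n) :
    rho (bend δ ξ).1 (ξ : Sph (n + 1)).1 ≤ δ := by
  have h0 : bendVec 0 (ξ : Sph (n + 1)).1 = (ξ : Sph (n + 1)).1 := by
    funext i
    by_cases hi : i = Fin.last n
    · subst hi
      simp only [bendVec, if_true, Real.sin_zero, Quaternion.coe_zero]
      exact ξ.2.symm
    · simp [bendVec, hi]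
  have h1 : 1 - herm (bend δ ξ).1 (ξ : Sph (n + 1)).1
      = ((1 - Real.cos (ang δ (ξ : Sph (n + 1)).1) : ℝ) : Quaternion ℝ) := by
    have h2 := one_sub_herm_bendVec (ang δ (ξ : Sph (n + 1)).1) 0
      (x := (ξ : Sph (n + 1)).1) (y := (ξ : Sph (n + 1)).1) ξ.2
    rw [h0, herm_self, show nsq (ξ : Sph (n + 1)).1 = 1 from ξ.1.2, Quaternion.coe_one, sub_self,
      mul_zero, add_zero, sub_zero] at h2
    exact h2
  apply (sq_le_sq₀ (rho_nonneg _ _) hδ0).mp
  rw [rho_sq, h1, Quaternion.norm_coe, Real.norm_eq_abs,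
    abs_of_nonneg (by linarith [Real.cos_le_one (ang δ (ξ : Sph (n + 1)).1)])]
  have h3 := Real.one_sub_sq_div_two_le_cos (x := ang δ (ξ : Sph (n + 1)).1)
  have h4 := ang_le hδ0 (ξ : Sph (n + 1)).1
  have h5 := ang_nonneg δ (ξ : Sph (n + 1)).1
  nlinarith

/-- The bending map is quasisymmetric for every visual metric. -/
theorem bend_qs {δ : ℝ} (hδ0 : 0 ≤ δ) (hδ1 : δ ≤ 1) {d : Sph (n + 1) → Sph (n + 1) → ℝ}
    (hd : IsVisualMetric d) : IsQSEmbedding d (bend δ : Xset n → Sph (n + 1)) := by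
  obtain ⟨κ, D, hκ, hD, hcomp⟩ := hd.comparable
  refine ⟨?_, ?_⟩
  · intro ξ η h
    by_contra hne
    have h1 := (bend_bounds hδ0 hδ1 ξ η).1
    rw [h, rho_self (bend δ η).2] at h1
    have h2 : 0 < rho (ξ : Sph (n + 1)).1 (η : Sph (n + 1)).1 :=
      rho_pos ξ.1.2 η.1.2 fun h' => hne (Subtype.ext (Subtype.ext h'))
    linarith
  · have h2κ : (0 : ℝ) < 2 ^ κ := Real.rpow_pos_of_pos two_pos κ
    set c : ℝ := D * 2 ^ κ * D * (D * 2 ^ κ * D) with hc
    have hc0 : 0 < c := by positivity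
    -- two sided comparison
    have hup : ∀ x a : Xset n, d (bend δ x) (bend δ a) ≤ D * 2 ^ κ * D * d x a := by
      intro x a
      have h1 := (hcomp (bend δ x) (bend δ a)).2
      have h2 : rho (bend δ x).1 (bend δ a).1 ^ κ
          ≤ 2 ^ κ * rho (x : Sph (n + 1)).1 (a : Sph (n + 1)).1 ^ κ := by
        rw [← Real.mul_rpow two_pos.le (rho_nonneg _ _)]
        exact Real.rpow_le_rpow (rho_nonneg _ _) (bend_bounds hδ0 hδ1 x a).2 hκ.le
      have h3 := (hcomp (x : Sph (n + 1)) (a : Sph (n + 1))).1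
      rw [inv_mul_le_iff₀ hD] at h3
      calc d (bend δ x) (bend δ a) ≤ D * rho (bend δ x).1 (bend δ a).1 ^ κ := h1
        _ ≤ D * (2 ^ κ * (D * d x a)) := by
            apply mul_le_mul_of_nonneg_left _ hD.le
            exact h2.trans (mul_le_mul_of_nonneg_left h3 h2κ.le)
        _ = D * 2 ^ κ * D * d x a := by ring
    have hlo : ∀ x a : Xset n, d x a ≤ D * 2 ^ κ * D * d (bend δ x) (bend δ a) := by
      intro x a
      have h1 := (hcomp (x : Sph (n + 1)) (a : Sph (n + 1))).2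
      have h2 : rho (x : Sph (n + 1)).1 (a : Sph (n + 1)).1 ^ κ
          ≤ 2 ^ κ * rho (bend δ x).1 (bend δ a).1 ^ κ := by
        rw [← Real.mul_rpow two_pos.le (rho_nonneg _ _)]
        apply Real.rpow_le_rpow (rho_nonneg _ _) _ hκ.le
        linarith [(bend_bounds hδ0 hδ1 x a).1]
      have h3 := (hcomp (bend δ x) (bend δ a)).1
      rw [inv_mul_le_iff₀ hD] at h3
      calc d x a ≤ D * rho (x : Sph (n + 1)).1 (a : Sph (n + 1)).1 ^ κ := h1
        _ ≤ D * (2 ^ κ * (D * d (bend δ x) (bend δ a))) := by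
            apply mul_le_mul_of_nonneg_left _ hD.le
            exact h2.trans (mul_le_mul_of_nonneg_left h3 h2κ.le)
        _ = D * 2 ^ κ * D * d (bend δ x) (bend δ a) := by ring
    have hcnn : c.toNNReal ≠ 0 := by
      intro h
      rw [Real.toNNReal_eq_zero] at h
      linarith
    refine ⟨Homeomorph.mulLeft₀ c.toNNReal hcnn, fun x a b t hxab => ?_⟩
    have hη : ((Homeomorph.mulLeft₀ c.toNNReal hcnn t : ℝ≥0) : ℝ) = c * t := by
      rw [Homeomorph.coe_mulLeft₀, NNReal.coe_mul, Real.coe_toNNReal c hc0.le]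
    rw [hη]
    have hK : (0 : ℝ) ≤ D * 2 ^ κ * D := by positivity
    calc d (bend δ x) (bend δ a) ≤ D * 2 ^ κ * D * d x a := hup x a
      _ ≤ D * 2 ^ κ * D * (t * d x b) := mul_le_mul_of_nonneg_left hxab hK
      _ ≤ D * 2 ^ κ * D * (t * (D * 2 ^ κ * D * d (bend δ x) (bend δ b))) := by
          apply mul_le_mul_of_nonneg_left _ hK
          exact mul_le_mul_of_nonneg_left (hlo x b) t.2
      _ = c * t * d (bend δ x) (bend δ b) := by rw [hc]; ring

end Pool.Agent.H.MP_885f98_gt
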