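import Pool.Agent.H.MP_885f98_gt.Basic

namespace Pool.Agent.H.MP_885f98_gt

open Filter Set
open scoped Topology

variable {k : ℕ}

/-- The unit ball of `ℍ^k`. -/
def Ball (k : ℕ) : Set (QVec k) := {x | nsq x < 1}

/-- The unit sphere of `ℍ^k`. -/
def Sph (k : ℕ) : Set (QVec k) := {x | nsq x = 1}

/-- The hyperbolic distance of the ball model of quaternionic hyperbolic space. -/
noncomputable def hdist (x y : QVec k) : ℝ :=
  Real.arcosh (‖1 - herm x y‖ / √((1 - nsq x) * (1 - nsq y)))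

/-- The Gromov product. -/
noncomputable def gromov (o x y : QVec k) : ℝ := (hdist x o + hdist y o - hdist x y) / 2

theorem sqrt_nsq_lt_one {x : QVec k} (hx : x ∈ Ball k) : √(nsq x) < 1 := by
  rw [Real.sqrt_lt' one_pos, one_pow]
  exact hx

theorem norm_one_sub_herm_ge (x y : QVec k) :
    1 - √(nsq x) * √(nsq y) ≤ ‖1 - herm x y‖ := by
  have h1 := norm_herm_le x y
  have h2 := norm_add_le (1 - herm x y) (herm x y)
  rw [sub_add_cancel, norm_one] at h2
  linarith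

theorem norm_one_sub_herm_pos {x y : QVec k} (hx : x ∈ Ball k) (hy : y ∈ Ball k) :
    0 < ‖1 - herm x y‖ := by
  have h1 := norm_one_sub_herm_ge x y
  have h2 := sqrt_nsq_lt_one hx
  have h3 := sqrt_nsq_lt_one hy
  have h4 : √(nsq x) * √(nsq y) < 1 := by
    nlinarith [Real.sqrt_nonneg (nsq x), Real.sqrt_nonneg (nsq y)]
  linarith

/-- The quotient in the definition of the distance is at least one. -/
theorem one_le_quot {x y : QVec k} (hx : x ∈ Ball k) (hy : y ∈ Ball k) :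
    1 ≤ ‖1 - herm x y‖ / √((1 - nsq x) * (1 - nsq y)) := by
  have hx1 : 0 < 1 - nsq x := sub_pos.mpr hx
  have hy1 : 0 < 1 - nsq y := sub_pos.mpr hy
  rw [one_le_div (Real.sqrt_pos.mpr (mul_pos hx1 hy1))]
  apply Real.sqrt_le_iff.mpr
  refine ⟨norm_nonneg _, ?_⟩
  have h1 := norm_one_sub_herm_ge x y
  have hp := Real.sq_sqrt (nsq_nonneg x)
  have hq := Real.sq_sqrt (nsq_nonneg y)
  set p := √(nsq x)
  set q := √(nsq y)
  have hp0 : 0 ≤ p := Real.sqrt_nonneg _
  have hq0 : 0 ≤ q := Real.sqrt_nonneg _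
  have hp1 : p < 1 := sqrt_nsq_lt_one hx
  have hq1 : q < 1 := sqrt_nsq_lt_one hy
  have h2 : 0 ≤ 1 - p * q := by nlinarith
  have h3 : (1 - p * q) ^ 2 ≤ ‖1 - herm x y‖ ^ 2 := pow_le_pow_left₀ h2 h1 2
  rw [← hp, ← hq]
  nlinarith [sq_nonneg (p - q)]

theorem cosh_hdist {x y : QVec k} (hx : x ∈ Ball k) (hy : y ∈ Ball k) :
    Real.cosh (hdist x y) = ‖1 - herm x y‖ / √((1 - nsq x) * (1 - nsq y)) :=
  Real.cosh_arcosh (one_le_quot hx hy)

theorem exp_hdist_bounds {x y : QVec k} (hx : x ∈ Ball k) (hy : y ∈ Ball k) :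
    ‖1 - herm x y‖ / √((1 - nsq x) * (1 - nsq y)) ≤ Real.exp (hdist x y) ∧
      Real.exp (hdist x y) ≤ 2 * (‖1 - herm x y‖ / √((1 - nsq x) * (1 - nsq y))) := by
  have h1 := one_le_quot hx hy
  rw [hdist, Real.exp_arcosh h1]
  set c := ‖1 - herm x y‖ / √((1 - nsq x) * (1 - nsq y))
  constructor
  · linarith [Real.sqrt_nonneg (c ^ 2 - 1)]
  · have : √(c ^ 2 - 1) ≤ c := by
      apply Real.sqrt_le_iff.mpr
      exact ⟨by linarith, by linarith⟩
    linarith

/-- Two sided bounds for the exponential of the Gromov product. -/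
theorem gromov_bounds {o : QVec k} (ho : o ∈ Ball k) : ∃ A : ℝ, 0 < A ∧
    ∀ x ∈ Ball k, ∀ y ∈ Ball k, A⁻¹ * ‖1 - herm x y‖ ≤ Real.exp (-2 * gromov o x y) ∧
      Real.exp (-2 * gromov o x y) ≤ A * ‖1 - herm x y‖ := by
  have ho1 : 0 < 1 - nsq o := sub_pos.mpr ho
  set m : ℝ := 1 - √(nsq o) with hm
  have hm0 : 0 < m := sub_pos.mpr (sqrt_nsq_lt_one ho)
  refine ⟨2 * (1 - nsq o) / m ^ 2 + 16 / (1 - nsq o), by positivity, fun x hx y hy => ?_⟩
  have hx1 : 0 < 1 - nsq x := sub_pos.mpr hx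
  have hy1 : 0 < 1 - nsq y := sub_pos.mpr hy
  have hfac : ∀ z ∈ Ball k, m ≤ ‖1 - herm z o‖ ∧ ‖1 - herm z o‖ ≤ 2 := by
    intro z hz
    have h1 := norm_one_sub_herm_ge z o
    have h2 := sqrt_nsq_lt_one hz
    have h3 := sqrt_nsq_lt_one ho
    have h4 := Real.sqrt_nonneg (nsq z)
    have h5 := Real.sqrt_nonneg (nsq o)
    constructor
    · nlinarith
    · have h6 := norm_sub_le (1 : Quaternion ℝ) (herm z o)
      rw [norm_one] at h6
      have h7 := norm_herm_le z o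
      nlinarith
  obtain ⟨hxo1, hxo2⟩ := hfac x hx
  obtain ⟨hyo1, hyo2⟩ := hfac y hy
  obtain ⟨bxy1, bxy2⟩ := exp_hdist_bounds hx hy
  obtain ⟨bxo1, bxo2⟩ := exp_hdist_bounds hx ho
  obtain ⟨byo1, byo2⟩ := exp_hdist_bounds hy ho
  have hexp : Real.exp (-2 * gromov o x y)
      = Real.exp (hdist x y) / (Real.exp (hdist x o) * Real.exp (hdist y o)) := by
    rw [← Real.exp_add, ← Real.exp_sub, gromov]
    congr 1
    ring
  rw [Real.sqrt_mul hx1.le] at bxy1 bxy2 bxo1 bxo2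
  rw [Real.sqrt_mul hy1.le] at byo1 byo2
  set sx := √(1 - nsq x)
  set sy := √(1 - nsq y)
  set so := √(1 - nsq o) with hso
  have hsx : 0 < sx := Real.sqrt_pos.mpr hx1
  have hsy : 0 < sy := Real.sqrt_pos.mpr hy1
  have hso0 : 0 < so := Real.sqrt_pos.mpr ho1
  have hso2 : so * so = 1 - nsq o := Real.mul_self_sqrt ho1.le
  set hxy := ‖1 - herm x y‖
  set hxo := ‖1 - herm x o‖
  set hyo := ‖1 - herm y o‖
  have hxy0 : 0 ≤ hxy := norm_nonneg _
  have hxo0 : 0 < hxo := hm0.trans_le hxo1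
  have hyo0 : 0 < hyo := hm0.trans_le hyo1
  rw [hexp]
  constructor
  · -- lower bound
    have h1 : hxy / (sx * sy) / ((2 * (hxo / (sx * so))) * (2 * (hyo / (sy * so))))
        ≤ Real.exp (hdist x y) / (Real.exp (hdist x o) * Real.exp (hdist y o)) := by
      apply div_le_div₀ (Real.exp_pos _).le bxy1 (by positivity)
      exact mul_le_mul bxo2 byo2 (Real.exp_pos _).le (by positivity)
    have h2 : hxy / (sx * sy) / ((2 * (hxo / (sx * so))) * (2 * (hyo / (sy * so))))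
        = hxy * (1 - nsq o) / (4 * (hxo * hyo)) := by
      rw [← hso2]
      field_simp
      ring
    rw [h2] at h1
    refine le_trans ?_ h1
    have h3 : hxo * hyo ≤ 4 := by nlinarith
    have h4 : (1 - nsq o) / 16 ≤ (1 - nsq o) / (4 * (hxo * hyo)) := by
      apply div_le_div_of_nonneg_left ho1.le (by positivity)
      linarith
    have h5 : (2 * (1 - nsq o) / m ^ 2 + 16 / (1 - nsq o))⁻¹ ≤ (1 - nsq o) / 16 := by
      have h6 : 16 / (1 - nsq o) ≤ 2 * (1 - nsq o) / m ^ 2 + 16 / (1 - nsq o) := by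
        have : 0 ≤ 2 * (1 - nsq o) / m ^ 2 := by positivity
        linarith
      have h7 := inv_anti₀ (by positivity) h6
      rwa [inv_div] at h7
    calc (2 * (1 - nsq o) / m ^ 2 + 16 / (1 - nsq o))⁻¹ * hxy
        ≤ (1 - nsq o) / (4 * (hxo * hyo)) * hxy :=
          mul_le_mul_of_nonneg_right (h5.trans h4) hxy0
      _ = hxy * (1 - nsq o) / (4 * (hxo * hyo)) := by ring
  · -- upper bound
    have h1 : Real.exp (hdist x y) / (Real.exp (hdist x o) * Real.exp (hdist y o))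
        ≤ 2 * (hxy / (sx * sy)) / ((hxo / (sx * so)) * (hyo / (sy * so))) := by
      apply div_le_div₀ (by positivity) bxy2 (by positivity)
      exact mul_le_mul bxo1 byo1 (by positivity) (Real.exp_pos _).le
    have h2 : 2 * (hxy / (sx * sy)) / ((hxo / (sx * so)) * (hyo / (sy * so)))
        = 2 * (1 - nsq o) / (hxo * hyo) * hxy := by
      rw [← hso2]
      field_simp
    rw [h2] at h1
    refine h1.trans ?_
    apply mul_le_mul_of_nonneg_right _ hxy0
    have h3 : m ^ 2 ≤ hxo * hyo := by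
      rw [sq]
      exact mul_le_mul hxo1 hyo1 hm0.le hxo0.le
    have h4 : 2 * (1 - nsq o) / (hxo * hyo) ≤ 2 * (1 - nsq o) / m ^ 2 :=
      div_le_div_of_nonneg_left (by positivity) (by positivity) h3
    have h5 : 0 < 16 / (1 - nsq o) := by positivity
    linarith

theorem continuous_herm : Continuous fun p : QVec k × QVec k => herm p.1 p.2 := by
  unfold herm
  fun_prop

theorem continuous_nsq : Continuous fun x : QVec k => nsq x := by
  unfold nsq
  fun_prop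

theorem nsq_smul (t : ℝ) (x : QVec k) : nsq (t • x) = t ^ 2 * nsq x := by
  simp only [nsq, Pi.smul_apply, norm_smul, mul_pow, Real.norm_eq_abs, sq_abs, Finset.mul_sum]

theorem neBot_nhdsWithin {x : QVec k} (hx : x ∈ Sph k) : (𝓝[Ball k] x).NeBot := by
  rw [← mem_closure_iff_nhdsWithin_neBot]
  have h1 : Tendsto (fun t : ℝ => t • x) (𝓝[<] 1) (𝓝 ((1 : ℝ) • x)) := by
    have : Continuous fun t : ℝ => t • x := by fun_prop
    exact (this.tendsto 1).mono_left nhdsWithin_le_nhds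
  rw [one_smul] at h1
  refine mem_closure_of_tendsto h1 ?_
  have h2 : ∀ᶠ t : ℝ in 𝓝[<] 1, t ∈ Ioo (0 : ℝ) 1 := Ioo_mem_nhdsLT (by norm_num)
  filter_upwards [h2] with t ht
  show nsq (t • x) < 1
  rw [nsq_smul, hx, mul_one]
  nlinarith [ht.1, ht.2]

/-- The limit of the quantity `|1 - ⟨x, y⟩|` at boundary points. -/
theorem tendsto_norm_herm (x y : QVec k) (s t : Set (QVec k)) :
    Tendsto (fun p : QVec k × QVec k => ‖1 - herm p.1 p.2‖) (𝓝[s] x ×ˢ 𝓝[t] y)
      (𝓝 ‖1 - herm x y‖) := by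
  have h1 : Continuous fun p : QVec k × QVec k => ‖1 - herm p.1 p.2‖ :=
    (continuous_const.sub continuous_herm).norm
  have h2 := h1.tendsto (x, y)
  refine h2.mono_left ?_
  rw [nhds_prod_eq]
  exact Filter.prod_mono nhdsWithin_le_nhds nhdsWithin_le_nhds

/-- Visual metrics on the ideal boundary. -/
structure IsVisualMetric (d : Sph k → Sph k → ℝ) : Prop where
  self : ∀ x, d x x = 0
  pos : ∀ x y, x ≠ y → 0 < d x y
  symm : ∀ x y, d x y = d y x
  triangle : ∀ x y z, d x z ≤ d x y + d y z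
  visual : ∃ o ∈ Ball k, ∃ κ C : ℝ, 0 < κ ∧ 0 < C ∧ ∀ ξ η : Sph k, ξ ≠ η →
    ∀ᶠ p : QVec k × QVec k in 𝓝[Ball k] (ξ : QVec k) ×ˢ 𝓝[Ball k] (η : QVec k),
      C⁻¹ * Real.exp (-κ * gromov o p.1 p.2) ≤ d ξ η ∧
        d ξ η ≤ C * Real.exp (-κ * gromov o p.1 p.2)

/-- Every visual metric is comparable to a power of `rho`. -/
theorem IsVisualMetric.comparable {d : Sph k → Sph k → ℝ} (hd : IsVisualMetric d) :
    ∃ κ D : ℝ, 0 < κ ∧ 0 < D ∧ ∀ ξ η : Sph k,
      D⁻¹ * rho (ξ : QVec k) η ^ κ ≤ d ξ η ∧ d ξ η ≤ D * rho (ξ : QVec k) η ^ κ := by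
  obtain ⟨o, ho, κ, C, hκ, hC, hv⟩ := hd.visual
  obtain ⟨A, hA, hAb⟩ := gromov_bounds ho
  have hApow : 0 < A ^ (κ / 2) := Real.rpow_pos_of_pos hA _
  refine ⟨κ, C * A ^ (κ / 2), hκ, by positivity, fun ξ η => ?_⟩
  by_cases hne : ξ = η
  · subst hne
    rw [hd.self, rho_self ξ.2, Real.zero_rpow hκ.ne']
    simp
  have : (𝓝[Ball k] (ξ : QVec k)).NeBot := neBot_nhdsWithin ξ.2
  have : (𝓝[Ball k] (η : QVec k)).NeBot := neBot_nhdsWithin η.2
  have hball : ∀ᶠ p : QVec k × QVec k in 𝓝[Ball k] (ξ : QVec k) ×ˢ 𝓝[Ball k] (η : QVec k),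
      p.1 ∈ Ball k ∧ p.2 ∈ Ball k :=
    prod_mem_prod self_mem_nhdsWithin self_mem_nhdsWithin
  have hlim := tendsto_norm_herm (ξ : QVec k) (η : QVec k) (Ball k) (Ball k)
  have hrho : ‖1 - herm (ξ : QVec k) η‖ ^ (κ / 2) = rho (ξ : QVec k) η ^ κ := by
    rw [← rho_sq, ← Real.rpow_natCast, ← Real.rpow_mul (rho_nonneg _ _)]
    congr 1
    push_cast
    ring
  have hpow : ∀ x y : QVec k, Real.exp (-κ * gromov o x y)
      = Real.exp (-2 * gromov o x y) ^ (κ / 2) := by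
    intro x y
    rw [← Real.exp_mul]
    congr 1
    ring
  constructor
  · have h1 : Tendsto (fun p : QVec k × QVec k => C⁻¹ * (A⁻¹ * ‖1 - herm p.1 p.2‖) ^ (κ / 2))
        (𝓝[Ball k] (ξ : QVec k) ×ˢ 𝓝[Ball k] (η : QVec k))
        (𝓝 (C⁻¹ * (A⁻¹ * ‖1 - herm (ξ : QVec k) η‖) ^ (κ / 2))) :=
      ((hlim.const_mul A⁻¹).rpow_const (Or.inr (by positivity))).const_mul C⁻¹
    have h2 : C⁻¹ * (A⁻¹ * ‖1 - herm (ξ : QVec k) η‖) ^ (κ / 2) ≤ d ξ η := by
      refine le_of_tendsto h1 ?_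
      filter_upwards [hv ξ η hne, hball] with p hp hb
      refine le_trans ?_ hp.1
      rw [hpow]
      apply mul_le_mul_of_nonneg_left _ (by positivity)
      exact Real.rpow_le_rpow (by positivity) (hAb p.1 hb.1 p.2 hb.2).1 (by positivity)
    refine le_trans (le_of_eq ?_) h2
    rw [Real.mul_rpow (by positivity) (norm_nonneg _), hrho, Real.inv_rpow hA.le, mul_inv]
    ring
  · have h1 : Tendsto (fun p : QVec k × QVec k => C * (A * ‖1 - herm p.1 p.2‖) ^ (κ / 2))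
        (𝓝[Ball k] (ξ : QVec k) ×ˢ 𝓝[Ball k] (η : QVec k))
        (𝓝 (C * (A * ‖1 - herm (ξ : QVec k) η‖) ^ (κ / 2))) :=
      ((hlim.const_mul A).rpow_const (Or.inr (by positivity))).const_mul C
    have h2 : d ξ η ≤ C * (A * ‖1 - herm (ξ : QVec k) η‖) ^ (κ / 2) := by
      refine ge_of_tendsto h1 ?_
      filter_upwards [hv ξ η hne, hball] with p hp hb
      refine hp.2.trans ?_
      rw [hpow]
      apply mul_le_mul_of_nonneg_left _ hC.le
      exact Real.rpow_le_rpow (Real.exp_pos _).le (hAb p.1 hb.1 p.2 hb.2).2 (by positivity)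
    refine h2.trans (le_of_eq ?_)
    rw [Real.mul_rpow hA.le (norm_nonneg _), hrho]
    ring

theorem zero_mem_ball : (0 : QVec k) ∈ Ball k := by
  show nsq (0 : QVec k) < 1
  simp [nsq]

/-- `rho` is a visual metric. -/
theorem isVisualMetric_rho : IsVisualMetric (k := k) (fun ξ η => rho (ξ : QVec k) η) := by
  refine ⟨fun x => rho_self x.2, fun x y hxy => rho_pos x.2 y.2 (fun h => hxy (Subtype.ext h)),
    fun x y => rho_comm _ _, fun x y z => rho_triangle x.2 y.2 z.2, ?_⟩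
  obtain ⟨A, hA, hAb⟩ := gromov_bounds (zero_mem_ball (k := k))
  refine ⟨0, zero_mem_ball, 1, 2 * √A, one_pos, by positivity, fun ξ η hne => ?_⟩
  have hpos : 0 < rho (ξ : QVec k) η := rho_pos ξ.2 η.2 (fun h => hne (Subtype.ext h))
  have hlim := tendsto_norm_herm (ξ : QVec k) (η : QVec k) (Ball k) (Ball k)
  rw [← rho_sq] at hlim
  have hball : ∀ᶠ p : QVec k × QVec k in 𝓝[Ball k] (ξ : QVec k) ×ˢ 𝓝[Ball k] (η : QVec k),
      p.1 ∈ Ball k ∧ p.2 ∈ Ball k :=
    prod_mem_prod self_mem_nhdsWithin self_mem_nhdsWithin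
  have hlo := hlim.eventually (lt_mem_nhds (show rho (ξ : QVec k) η ^ 2 / 4 < _ by
    have : 0 < rho (ξ : QVec k) η ^ 2 := by positivity
    linarith))
  have hhi := hlim.eventually (gt_mem_nhds (show rho (ξ : QVec k) η ^ 2 < 4 * rho (ξ : QVec k) η ^ 2
    by
    have : 0 < rho (ξ : QVec k) η ^ 2 := by positivity
    linarith))
  filter_upwards [hball, hlo, hhi] with p hb h1 h2
  obtain ⟨b1, b2⟩ := hAb p.1 hb.1 p.2 hb.2
  set R := rho (ξ : QVec k) η with hR
  have hsq : Real.exp (-1 * gromov 0 p.1 p.2) ^ 2 = Real.exp (-2 * gromov 0 p.1 p.2) := by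
    rw [← Real.exp_nat_mul]
    congr 1
    push_cast
    ring
  set E := Real.exp (-1 * gromov 0 p.1 p.2) with hE
  have hE0 : 0 < E := Real.exp_pos _
  have hsA : √A * √A = A := Real.mul_self_sqrt hA.le
  have hsA0 : 0 < √A := Real.sqrt_pos.mpr hA
  constructor
  · -- E ≤ 2 √A R
    have h3 : E ≤ 2 * √A * R := by
      apply (sq_le_sq₀ hE0.le (by positivity)).mp
      rw [hsq]
      calc _ ≤ A * ‖1 - herm p.1 p.2‖ := b2
        _ ≤ A * (4 * R ^ 2) := mul_le_mul_of_nonneg_left h2.le hA.le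
        _ = (2 * √A * R) ^ 2 := by
          rw [mul_pow, mul_pow, sq √A, hsA]
          ring
    rw [inv_mul_le_iff₀ (by positivity)]
    exact h3
  · -- R ≤ 2 √A E
    apply (sq_le_sq₀ hpos.le (by positivity)).mp
    rw [mul_pow, mul_pow, hsq, sq √A, hsA]
    rw [inv_mul_le_iff₀ hA] at b1
    nlinarith

end Pool.Agent.H.MP_885f98_gt
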