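import Pool.Agent.H.MP_885f98_gt.Bend

namespace Pool.Agent.H.MP_885f98_gt

open Filter Set
open scoped Topology

variable {n k : ℕ}

/-- The factor by which an isometry scales the hermitian form. -/
theorem norm_herm_eq {x y x' y' : QVec k} (hx : x ∈ Ball k) (hy : y ∈ Ball k)
    (hx' : x' ∈ Ball k) (hy' : y' ∈ Ball k) (h : hdist x' y' = hdist x y) :
    ‖1 - herm x' y'‖ = (√(1 - nsq x') / √(1 - nsq x)) * (√(1 - nsq y') / √(1 - nsq y))
      * ‖1 - herm x y‖ := by
  have hx1 : 0 < 1 - nsq x := sub_pos.mpr hx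
  have hy1 : 0 < 1 - nsq y := sub_pos.mpr hy
  have hx1' : 0 < 1 - nsq x' := sub_pos.mpr hx'
  have hy1' : 0 < 1 - nsq y' := sub_pos.mpr hy'
  have h1 := cosh_hdist hx hy
  have h2 := cosh_hdist hx' hy'
  rw [h, h1, Real.sqrt_mul hx1.le, Real.sqrt_mul hx1'.le] at h2
  have sx := Real.sqrt_pos.mpr hx1
  have sy := Real.sqrt_pos.mpr hy1
  have sx' := Real.sqrt_pos.mpr hx1'
  have sy' := Real.sqrt_pos.mpr hy1'
  rw [div_eq_div_iff (by positivity) (by positivity)] at h2
  field_simp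
  linarith

/-- The cross ratio identity for isometries. -/
theorem cross_identity {g : Ball k → Ball k} (hg : IsHypIsometry g) (x y z w : Ball k) :
    ‖1 - herm (g x : QVec k) (g y)‖ * ‖1 - herm (g z : QVec k) (g w)‖
        * ‖1 - herm (x : QVec k) w‖ * ‖1 - herm (z : QVec k) y‖
      = ‖1 - herm (x : QVec k) y‖ * ‖1 - herm (z : QVec k) w‖
        * ‖1 - herm (g x : QVec k) (g w)‖ * ‖1 - herm (g z : QVec k) (g y)‖ := by
  rw [norm_herm_eq x.2 y.2 (g x).2 (g y).2 (hg.2 x y),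
    norm_herm_eq z.2 w.2 (g z).2 (g w).2 (hg.2 z w),
    norm_herm_eq x.2 w.2 (g x).2 (g w).2 (hg.2 x w),
    norm_herm_eq z.2 y.2 (g z).2 (g y).2 (hg.2 z y)]
  ring

/-- A sequence in the ball that tends to a given point of the sphere. -/
noncomputable def radial (ξ : Sph k) (j : ℕ) : Ball k :=
  ⟨(1 - 1 / ((j : ℝ) + 2)) • (ξ : QVec k), by
    show nsq _ < 1
    rw [nsq_smul, show nsq (ξ : QVec k) = 1 from ξ.2, mul_one]
    have h1 : (0 : ℝ) < 1 / ((j : ℝ) + 2) := by positivity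
    have h2 : 1 / ((j : ℝ) + 2) < 1 := by
      rw [div_lt_one (by positivity)]
      have : (0 : ℝ) ≤ j := j.cast_nonneg
      linarith
    nlinarith⟩

theorem tendsto_radial (ξ : Sph k) :
    Tendsto (fun j => (radial ξ j : QVec k)) atTop (𝓝 (ξ : QVec k)) := by
  have h1 : Tendsto (fun j : ℕ => 1 / ((j : ℝ) + 2)) atTop (𝓝 0) := by
    have h2 : Tendsto (fun j : ℕ => (j : ℝ) + 2) atTop atTop :=
      tendsto_atTop_add_const_right _ _ tendsto_natCast_atTop_atTop
    refine h2.inv_tendsto_atTop.congr fun j => ?_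
    rw [Pi.inv_apply, one_div]
  have h3 : Tendsto (fun j : ℕ => (1 - 1 / ((j : ℝ) + 2)) • (ξ : QVec k)) atTop
      (𝓝 ((1 - 0 : ℝ) • (ξ : QVec k))) :=
    (tendsto_const_nhds.sub h1).smul tendsto_const_nhds
  rw [sub_zero, one_smul] at h3
  exact h3

theorem tendsto_radial' (ξ : Sph k) :
    Tendsto (radial ξ) atTop (comap Subtype.val (𝓝 (ξ : QVec k))) :=
  tendsto_comap_iff.mpr (tendsto_radial ξ)

theorem tendsto_image {g : Ball (n + 1) → Ball (n + 1)} {f : Xset n → Sph (n + 1)}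
    (hgf : Induces g f) (ξ : Xset n) :
    Tendsto (fun j => (g (radial (ξ : Sph (n + 1)) j) : QVec (n + 1))) atTop
      (𝓝 ((f ξ : Sph (n + 1)) : QVec (n + 1))) :=
  (hgf ξ).comp (tendsto_radial' (ξ : Sph (n + 1)))

theorem tendsto_norm_herm_seq {u v : ℕ → QVec k} {x y : QVec k} (hu : Tendsto u atTop (𝓝 x))
    (hv : Tendsto v atTop (𝓝 y)) :
    Tendsto (fun j => ‖1 - herm (u j) (v j)‖) atTop (𝓝 ‖1 - herm x y‖) := by
  have h1 : Continuous fun p : QVec k × QVec k => ‖1 - herm p.1 p.2‖ :=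
    (continuous_const.sub continuous_herm).norm
  have h2 : Tendsto (fun p : QVec k × QVec k => ‖1 - herm p.1 p.2‖) (𝓝 (x, y))
      (𝓝 ‖1 - herm x y‖) := h1.tendsto (x, y)
  have h3 : Tendsto (fun j => (u j, v j)) atTop (𝓝 (x, y)) := hu.prodMk_nhds hv
  have h4 := Filter.Tendsto.comp h2 h3
  exact h4

/-- The cross ratio identity at infinity. -/
theorem cross_identity_boundary {g : Ball (n + 1) → Ball (n + 1)} (hg : IsHypIsometry g)
    {f : Xset n → Sph (n + 1)} (hgf : Induces g f) (x y z w : Xset n) :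
    ‖1 - herm (f x).1 (f y).1‖ * ‖1 - herm (f z).1 (f w).1‖
        * ‖1 - herm x.1.1 w.1.1‖ * ‖1 - herm z.1.1 y.1.1‖
      = ‖1 - herm x.1.1 y.1.1‖ * ‖1 - herm z.1.1 w.1.1‖
        * ‖1 - herm (f x).1 (f w).1‖ * ‖1 - herm (f z).1 (f y).1‖ := by
  have T := fun p q : Xset n => tendsto_norm_herm_seq (tendsto_radial p.1) (tendsto_radial q.1)
  have S := fun p q : Xset n => tendsto_norm_herm_seq (tendsto_image hgf p) (tendsto_image hgf q)
  have h1 := (((S x y).mul (S z w)).mul (T x w)).mul (T z y)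
  have h2 := (((T x y).mul (T z w)).mul (S x w)).mul (S z y)
  refine tendsto_nhds_unique h1 (h2.congr fun j => ?_)
  exact (cross_identity hg (radial x.1 j) (radial y.1 j) (radial z.1 j) (radial w.1 j)).symm

/-- The coordinate points of `X`. -/
noncomputable def pt (i : Fin (n + 1)) (hi : i ≠ Fin.last n) (q : Quaternion ℝ) (hq : ‖q‖ = 1) :
    Xset n :=
  ⟨⟨Pi.single i q, nsq_single i q hq⟩, by
    show (Pi.single i q : QVec (n + 1)) (Fin.last n) = 0
    rw [Pi.single_eq_of_ne hi.symm]⟩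

theorem bend_eq_self {δ : ℝ} {ξ : Xset n} (h : δ ≤ rho ξ.1.1 (e1 n)) :
    (bend δ ξ).1 = ξ.1.1 := by
  have h0 : ang δ ξ.1.1 = 0 := by
    rw [ang, max_eq_left]
    linarith
  funext i
  show bendVec (ang δ ξ.1.1) ξ.1.1 i = ξ.1.1 i
  rw [h0]
  by_cases hi : i = Fin.last n
  · subst hi
    simp only [bendVec, if_true, Real.sin_zero, Quaternion.coe_zero]
    exact ξ.2.symm
  · simp [bendVec, hi]

/-- The bending map is not induced by an isometry. -/
theorem bend_not_induced (hn : 2 ≤ n) {δ : ℝ} (hδ0 : 0 < δ) (hδ1 : δ ≤ 1)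
    {g : Ball (n + 1) → Ball (n + 1)} (hg : IsHypIsometry g) :
    ¬ Induces g (bend δ : Xset n → Sph (n + 1)) := by
  intro hgf
  have i0 : (0 : Fin (n + 1)) ≠ Fin.last n := by
    intro h
    have := congrArg Fin.val h
    simp at this
    omega
  have hi1 : 1 < n + 1 := by omega
  have i1 : (⟨1, hi1⟩ : Fin (n + 1)) ≠ Fin.last n := by
    intro h
    have := congrArg Fin.val h
    simp at this
    omega
  have i01 : (0 : Fin (n + 1)) ≠ ⟨1, hi1⟩ := by
    intro h
    have := congrArg Fin.val h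
    simp at this
  have n1 : ‖(1 : Quaternion ℝ)‖ = 1 := norm_one
  have n2 : ‖(-1 : Quaternion ℝ)‖ = 1 := by rw [norm_neg, norm_one]
  have ntwo : ‖(1 : Quaternion ℝ) + 1‖ = 2 := by
    rw [one_add_one_eq_two]
    have : (2 : Quaternion ℝ) = ((2 : ℝ) : Quaternion ℝ) := by norm_cast
    rw [this, Quaternion.norm_coe]
    norm_num
  -- the four points
  set p1 : Xset n := pt 0 i0 1 n1 with hp1
  set p2 : Xset n := pt ⟨1, hi1⟩ i1 1 n1 with hp2
  set p3 : Xset n := pt ⟨1, hi1⟩ i1 (-1) n2 with hp3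
  set p4 : Xset n := pt 0 i0 (-1) n2 with hp4
  have v1 : p1.1.1 = Pi.single 0 1 := rfl
  have v2 : p2.1.1 = Pi.single ⟨1, hi1⟩ 1 := rfl
  have v3 : p3.1.1 = Pi.single ⟨1, hi1⟩ (-1) := rfl
  have v4 : p4.1.1 = Pi.single 0 (-1) := rfl
  have h12 : herm p1.1.1 p2.1.1 = 0 := by rw [v1, v2, herm_single, if_neg i01]
  have h34 : herm p3.1.1 p4.1.1 = 0 := by rw [v3, v4, herm_single, if_neg i01.symm]
  have h14 : herm p1.1.1 p4.1.1 = -1 := by
    rw [v1, v4, herm_single, if_pos rfl, star_neg, star_one, mul_neg, mul_one]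
  have h32 : herm p3.1.1 p2.1.1 = -1 := by
    rw [v3, v2, herm_single, if_pos rfl, star_one, mul_one]
  have b2 : (bend δ p2).1 = p2.1.1 := by
    apply bend_eq_self
    rw [v2, e1, rho, herm_single, if_neg i01.symm, sub_zero, norm_one, Real.sqrt_one]
    exact hδ1
  have b3 : (bend δ p3).1 = p3.1.1 := by
    apply bend_eq_self
    rw [v3, e1, rho, herm_single, if_neg i01.symm, sub_zero, norm_one, Real.sqrt_one]
    exact hδ1
  have b4 : (bend δ p4).1 = p4.1.1 := by
    apply bend_eq_self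
    rw [v4, e1, rho, herm_single, if_pos rfl, star_one, mul_one, sub_neg_eq_add, ntwo]
    refine hδ1.trans ?_
    rw [← Real.sqrt_one]
    exact Real.sqrt_le_sqrt (by norm_num)
  have a1 : ang δ p1.1.1 = δ := by
    have he : nsq (e1 n) = 1 := nsq_single 0 1 norm_one
    have : p1.1.1 = e1 n := rfl
    rw [ang, this, rho_self he, sub_zero]
    exact max_eq_right hδ0.le
  have b1 : (bend δ p1).1 = bendVec δ p1.1.1 := by
    show bendVec (ang δ p1.1.1) p1.1.1 = _
    rw [a1]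
  have hz : ∀ ξ : Xset n, bendVec 0 ξ.1.1 = ξ.1.1 := by
    intro ξ
    funext i
    by_cases hi : i = Fin.last n
    · subst hi
      simp only [bendVec, if_true, Real.sin_zero, Quaternion.coe_zero]
      exact ξ.2.symm
    · simp [bendVec, hi]
  have hf1 : ∀ ξ : Xset n, 1 - herm (bend δ p1).1 ξ.1.1
      = ((1 - Real.cos δ : ℝ) : Quaternion ℝ) + ((Real.cos δ : ℝ) : Quaternion ℝ)
        * (1 - herm p1.1.1 ξ.1.1) := by
    intro ξ
    have h := one_sub_herm_bendVec δ 0 (x := p1.1.1) (y := ξ.1.1) p1.2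
    rw [hz ξ, sub_zero, Real.cos_zero, mul_one] at h
    rw [b1, h]
  have key := cross_identity_boundary hg hgf p1 p2 p3 p4
  rw [b2, b3, b4, hf1, hf1, h12, h14, h32, h34, sub_zero, mul_one, sub_neg_eq_add,
    ← Quaternion.coe_add, sub_add_cancel, Quaternion.coe_one, norm_one, ntwo] at key
  have hc : ‖((1 - Real.cos δ : ℝ) : Quaternion ℝ) + ((Real.cos δ : ℝ) : Quaternion ℝ) * (1 + 1)‖
      = |1 + Real.cos δ| := by
    have : ((1 - Real.cos δ : ℝ) : Quaternion ℝ) + ((Real.cos δ : ℝ) : Quaternion ℝ) * (1 + 1)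
        = ((1 + Real.cos δ : ℝ) : Quaternion ℝ) := by
      rw [mul_add, mul_one]
      push_cast
      noncomm_ring
    rw [this, Quaternion.norm_coe, Real.norm_eq_abs]
  rw [hc] at key
  have hcos := half_le_cos hδ0.le hδ1
  rw [abs_of_nonneg (by linarith)] at key
  have hcos1 : Real.cos δ = 1 := by linarith
  have h5 := (Real.cos_eq_one_iff_of_lt_of_lt (x := δ) (by linarith [Real.pi_pos])
    (by linarith [Real.pi_gt_three])).mp hcos1
  linarith

end Pool.Agent.H.MP_885f98_gt
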